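import Pool.Agent.Helper17.SL.GoalsZE

/-!
# Packet SL ZC: elementary properties of Hilbert functions
-/

namespace Pool.Agent.Helper17.SL.PkZC

open MvPolynomial Module Pool.Agent.Helper17.SL

universe u x y

theorem wt_add {I J : Type*} [Fintype I] [Fintype J] (T S : ℕ) (d e : I ⊕ J →₀ ℕ) :
    wt T S (d + e) = wt T S d + wt T S e := by
  simp only [wt, Finsupp.add_apply, Finset.sum_add_distrib]
  ring

theorem fin_set {I J : Type*} [Fintype I] [Fintype J] (T S N : ℕ) (hT : 1 ≤ T) (hS : 1 ≤ S) :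
    {d : I ⊕ J →₀ ℕ | wt T S d ≤ N}.Finite := by
  classical
  refine Set.Finite.subset (Set.finite_Iic (Finsupp.equivFunOnFinite.symm fun _ : I ⊕ J ↦ N)) ?_
  intro d hd
  have hd' : S * ∑ i, d (Sum.inl i) + T * ∑ j, d (Sum.inr j) ≤ N := hd
  rw [Set.mem_Iic]
  intro k
  rw [Finsupp.equivFunOnFinite_symm_apply_apply]
  rcases k with i | j
  · have h1 : d (Sum.inl i) ≤ ∑ i, d (Sum.inl i) :=
      Finset.single_le_sum (f := fun i ↦ d (Sum.inl i)) (fun _ _ ↦ Nat.zero_le _)
        (Finset.mem_univ i)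
    have h2 : ∑ i, d (Sum.inl i) ≤ S * ∑ i, d (Sum.inl i) := Nat.le_mul_of_pos_left _ hS
    omega
  · have h1 : d (Sum.inr j) ≤ ∑ j, d (Sum.inr j) :=
      Finset.single_le_sum (f := fun j ↦ d (Sum.inr j)) (fun _ _ ↦ Nat.zero_le _)
        (Finset.mem_univ j)
    have h2 : ∑ j, d (Sum.inr j) ≤ T * ∑ j, d (Sum.inr j) := Nat.le_mul_of_pos_left _ hT
    omega

theorem fil_fin (K : Type u) [Field K] (I : Type x) (J : Type y) [Fintype I] [Fintype J]
    (T S n : ℕ) (hT : 1 ≤ T) (hS : 1 ≤ S) : FiniteDimensional K (Fil K I J T S n) := by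
  have hf : Finite {d : I ⊕ J →₀ ℕ | wt T S d ≤ n * (S * T)} :=
    (fin_set (I := I) (J := J) T S (n * (S * T)) hT hS).to_subtype
  exact Module.Finite.of_basis
    (basisRestrictSupport K {d : I ⊕ J →₀ ℕ | wt T S d ≤ n * (S * T)})

theorem fil_mono (K : Type u) [Field K] (I : Type x) (J : Type y) [Fintype I] [Fintype J]
    (T S n m : ℕ) (h : n ≤ m) : Fil K I J T S n ≤ Fil K I J T S m := by
  refine restrictSupport_mono K ?_
  intro d hd
  exact le_trans hd (Nat.mul_le_mul_right _ h)

theorem mem_fil {K : Type u} [Field K] {I : Type x} {J : Type y} [Fintype I] [Fintype J]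
    {T S n : ℕ} {f : MvPolynomial (I ⊕ J) K} :
    f ∈ Fil K I J T S n ↔ ∀ d ∈ f.support, wt T S d ≤ n * (S * T) := by
  rw [Fil, mem_restrictSupport_iff]
  exact Iff.rfl

theorem fil_mul {K : Type u} [Field K] {I : Type x} {J : Type y} [Fintype I] [Fintype J]
    {T S n m : ℕ} {f g : MvPolynomial (I ⊕ J) K} (hf : f ∈ Fil K I J T S n)
    (hg : g ∈ Fil K I J T S m) : f * g ∈ Fil K I J T S (n + m) := by
  classical
  rw [mem_fil] at hf hg ⊢
  intro d hd
  obtain ⟨a, ha, b, hb, rfl⟩ := Finset.mem_add.1 (support_mul f g hd)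
  rw [wt_add, add_mul]
  exact Nat.add_le_add (hf a ha) (hg b hb)

theorem thm : S_ZC.{u, x, y} := by
  intro K _ I J _ _ T S hT hS
  have hfin : ∀ n, FiniteDimensional K (Fil K I J T S n) := fun n ↦ fil_fin K I J T S n hT hS
  have hfinm : ∀ (A : Ideal (MvPolynomial (I ⊕ J) K)) n, FiniteDimensional K
      ((Fil K I J T S n).map (Ideal.Quotient.mkₐ K A).toLinearMap) := by
    intro A n
    have := hfin n
    infer_instance
  have hq : ∀ (A A' : Ideal (MvPolynomial (I ⊕ J) K)) (h : A ≤ A') (V : Submodule K _),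
      (V.map (Ideal.Quotient.mkₐ K A).toLinearMap).map
        (Ideal.Quotient.factorₐ K h).toLinearMap = V.map (Ideal.Quotient.mkₐ K A').toLinearMap := by
    intro A A' h V
    rw [← Submodule.map_comp]
    congr 1
  refine ⟨?_, ?_, ?_, ?_⟩
  · intro A n m h
    have := hfinm A m
    exact Submodule.finrank_mono (Submodule.map_mono (fil_mono K I J T S n m h))
  · intro A A' n h
    have := hfinm A n
    rw [hil, hil, ← hq A A' h]
    exact Submodule.finrank_map_le _ _
  · intro n
    have hinj : Function.Injective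
        (Ideal.Quotient.mkₐ K (⊥ : Ideal (MvPolynomial (I ⊕ J) K))).toLinearMap := by
      rw [injective_iff_map_eq_zero]
      intro z hz
      have hz' : Ideal.Quotient.mk (⊥ : Ideal (MvPolynomial (I ⊕ J) K)) z = 0 := hz
      rw [Ideal.Quotient.eq_zero_iff_mem] at hz'
      exact hz'
    exact (LinearEquiv.finrank_eq (Submodule.equivMapOfInjective _ hinj _)).symm
  · intro A A' f n hA hf hfA' hnz
    set V := (Fil K I J T S n).map (Ideal.Quotient.mkₐ K A).toLinearMap with hV
    set M := (Fil K I J T S (n + 1)).map (Ideal.Quotient.mkₐ K A).toLinearMap with hM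
    set q := (Ideal.Quotient.factorₐ K hA).toLinearMap with hqdef
    set μ : (MvPolynomial (I ⊕ J) K ⧸ A) →ₗ[K] (MvPolynomial (I ⊕ J) K ⧸ A) :=
      LinearMap.mulLeft K (Ideal.Quotient.mkₐ K A f) with hμ
    have hμinj : Function.Injective μ := by
      rw [injective_iff_map_eq_zero]
      intro z hz
      obtain ⟨g, rfl⟩ := Ideal.Quotient.mkₐ_surjective K A z
      have hz' : Ideal.Quotient.mkₐ K A (f * g) = 0 := by
        rw [map_mul]
        exact hz
      rw [Ideal.Quotient.mkₐ_eq_mk, Ideal.Quotient.eq_zero_iff_mem] at hz'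
      rw [Ideal.Quotient.mkₐ_eq_mk, Ideal.Quotient.eq_zero_iff_mem]
      exact hnz g hz'
    have hNM : V.map μ ≤ M := by
      rintro _ ⟨_, ⟨g, hg, rfl⟩, rfl⟩
      refine ⟨f * g, ?_, ?_⟩
      · have := fil_mul hf hg
        rwa [add_comm] at this
      · exact map_mul (Ideal.Quotient.mkₐ K A) f g
    have hNq : V.map μ ≤ LinearMap.ker q := by
      rintro _ ⟨_, ⟨g, hg, rfl⟩, rfl⟩
      rw [LinearMap.mem_ker]
      have : q (μ ((Ideal.Quotient.mkₐ K A).toLinearMap g)) =
          Ideal.Quotient.mkₐ K A' (f * g) := rfl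
      rw [this, Ideal.Quotient.mkₐ_eq_mk, Ideal.Quotient.eq_zero_iff_mem]
      exact Ideal.mul_mem_right _ _ hfA'
    have hMfin : FiniteDimensional K M := hfinm A (n + 1)
    have hVfin : FiniteDimensional K V := hfinm A n
    have hrn := LinearMap.finrank_range_add_finrank_ker (q.domRestrict M)
    have hrange : LinearMap.range (q.domRestrict M) =
        (Fil K I J T S (n + 1)).map (Ideal.Quotient.mkₐ K A').toLinearMap := by
      rw [LinearMap.range_domRestrict, ← hq A A' hA]
    have hker : finrank K V ≤ finrank K (LinearMap.ker (q.domRestrict M)) := by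
      have h1 : finrank K V = finrank K (V.map μ) :=
        (LinearEquiv.finrank_eq (Submodule.equivMapOfInjective μ hμinj V))
      have h2 : (V.map μ).submoduleOf M ≤ LinearMap.ker (q.domRestrict M) := by
        intro z hz
        exact hNq hz
      have h3 : finrank K ((V.map μ).submoduleOf M) = finrank K (V.map μ) :=
        LinearEquiv.finrank_eq (Submodule.submoduleOfEquivOfLe hNM)
      rw [h1, ← h3]
      exact Submodule.finrank_mono h2
    rw [hrange] at hrn
    show finrank K ((Fil K I J T S (n + 1)).map (Ideal.Quotient.mkₐ K A').toLinearMap) +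
      finrank K V ≤ finrank K M
    omega

end Pool.Agent.Helper17.SL.PkZC
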