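import Pool.Agent.Helper87.SL.Goals

set_option autoImplicit false

open Finset Filter Topology

namespace Pool.Agent.Helper83.SL

open Pool.Agent.Helper33.Schur
open Pool.Agent.Helper87.SL

theorem gORD : Pool.Agent.Helper87.SL.G_ORD := by
  intro k n χ
  set A : Finset (ℕ × ℕ) := (Icc 1 n ×ˢ Icc 1 n).filter
    (fun q => q.1 ≤ q.2 ∧ q.1 + q.2 ≤ n ∧ χ q.1 = χ q.2 ∧ χ q.2 = χ (q.1 + q.2)) with hA
  set B : Finset (ℕ × ℕ) := (Icc 1 n ×ˢ Icc 1 n).filter
    (fun q => q.2 ≤ q.1 ∧ q.1 + q.2 ≤ n ∧ χ q.1 = χ q.2 ∧ χ q.2 = χ (q.1 + q.2)) with hB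
  have hmono : schurMono χ n = A.card := rfl
  have hAB : B.card = A.card := by
    apply Finset.card_bij' (fun (p : ℕ × ℕ) _ => (p.2, p.1)) (fun (p : ℕ × ℕ) _ => (p.2, p.1))
    · intro p hp
      simp only [hB, hA, mem_filter, mem_product, mem_Icc] at hp ⊢
      obtain ⟨⟨⟨h1, h2⟩, h3, h4⟩, h5, h6, h7, h8⟩ := hp
      refine ⟨⟨⟨h3, h4⟩, h1, h2⟩, h5, by omega, h7.symm, ?_⟩
      rw [h7, h8, add_comm]
    · intro p hp
      simp only [hB, hA, mem_filter, mem_product, mem_Icc] at hp ⊢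
      obtain ⟨⟨⟨h1, h2⟩, h3, h4⟩, h5, h6, h7, h8⟩ := hp
      refine ⟨⟨⟨h3, h4⟩, h1, h2⟩, h5, by omega, h7.symm, ?_⟩
      rw [h7, h8, add_comm]
    · intro p _; rfl
    · intro p _; rfl
  have hord : ordP χ n 0 = (A ∪ B).card := by
    unfold ordP
    congr 1
    ext p
    simp only [hB, hA, mem_filter, mem_product, mem_Icc, mem_union, Nat.sub_zero, Nat.add_zero]
    constructor
    · rintro ⟨h0, h1, h2, h3, h4⟩
      rcases le_total p.1 p.2 with h | h
      · exact Or.inl ⟨h0, h, h2, h3, h4⟩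
      · exact Or.inr ⟨h0, h, h2, h3, h4⟩
    · rintro (⟨h0, h1, h2, h3, h4⟩ | ⟨h0, h1, h2, h3, h4⟩)
      · exact ⟨h0, by omega, h2, h3, h4⟩
      · exact ⟨h0, by omega, h2, h3, h4⟩
  have hint : (A ∩ B).card ≤ n := by
    have : (A ∩ B).card ≤ (Icc 1 n).card := by
      apply Finset.card_le_card_of_injOn (fun p => p.1)
      · intro p hp
        simp only [hB, hA, coe_inter, Set.mem_inter_iff, mem_coe, mem_filter, mem_product] at hp
        exact hp.1.1.1
      · intro p hp q hq h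
        simp only [hB, hA, coe_inter, Set.mem_inter_iff, mem_coe, mem_filter, mem_product] at hp hq
        have h1 := hp.1.2.1
        have h2 := hp.2.2.1
        have h3 := hq.1.2.1
        have h4 := hq.2.2.1
        simp only at h
        ext
        · exact h
        · omega
    simpa using this
  have hu := Finset.card_union_add_card_inter A B
  rw [hord, hmono]
  omega

end Pool.Agent.Helper83.SL
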